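import Pool.Agent.H30.FCB.StE
import Pool.Agent.H30.FCB.Basic

open MvPolynomial

namespace FCB

namespace PRSY

section gen

variable {R ι C : Type} {r : ℕ} [CommRing R] [Algebra ℂ R] [Fintype ι] [DecidableEq ι]
  {D : Cox R ι C r} [IsDomain R]

/-- the chart is unimodular -/
def Uni (D : Cox R ι C r) (c : C) : Prop := ∀ j ∈ D.u c, D.σ c (D.deg j) = Pi.single j 1

lemma monoZ_sum (h : D.Laws) (s : Finset ι) (k : ι → ℕ) (a : ι → ι → ℤ) :
    D.monoZ (∑ j ∈ s, (k j : ℤ) • a j) = ∏ j ∈ s, D.monoZ (a j) ^ k j := by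
  induction s using Finset.induction_on with
  | empty => simp [Cox.monoZ_zero]
  | insert j s hj ih =>
    rw [Finset.sum_insert hj, Finset.prod_insert hj, h.monoZ_add, ih]
    congr 1
    generalize k j = m
    induction m with
    | zero => simp [Cox.monoZ_zero]
    | succ m ihm =>
      rw [pow_succ, ← ihm, ← h.monoZ_add]
      congr 1
      push_cast
      rw [add_smul, one_smul]

lemma sigma_wt (c : C) (m : ι → ℕ) :
    D.σ c (D.wt m) = ∑ j, (m j : ℤ) • D.σ c (D.deg j) := by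
  rw [Cox.wt, map_sum]
  refine Finset.sum_congr rfl fun j _ => ?_
  rw [map_zsmul]

lemma prod_co (h : D.Laws) (c : C) (m : ι → ℕ) :
    ∏ j, D.co c j ^ m j =
      algebraMap R (FractionRing R) (D.mono m) * D.monoZ (-(D.σ c (D.wt m))) := by
  have h1 : D.monoZ (-(D.σ c (D.wt m))) = ∏ j, D.monoZ (-(D.σ c (D.deg j))) ^ m j := by
    rw [← monoZ_sum h Finset.univ m fun j => -(D.σ c (D.deg j)), sigma_wt]
    congr 1
    simp
  rw [h1, Cox.mono, map_prod, ← Finset.prod_mul_distrib]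
  refine Finset.prod_congr rfl fun j _ => ?_
  rw [Cox.co, mul_pow, map_pow]

lemma co_unit (h : D.Laws) {c : C} (hu : Uni D c) {j : ι} (hj : j ∈ D.u c) : D.co c j = 1 := by
  rw [Cox.co, hu j hj, ← Pi.single_neg, Cox.monoZ_single, zpow_neg_one]
  exact mul_inv_cancel₀ (h.xF_ne j)

lemma sigma_supp {c : C} (hu : Uni D c) {n : ι → ℕ} (hn : ∀ j, n j ≠ 0 → j ∈ D.u c) :
    D.σ c (D.wt n) = fun j => (n j : ℤ) := by
  rw [sigma_wt]
  have h1 : ∀ j, (n j : ℤ) • D.σ c (D.deg j) = Pi.single j (n j : ℤ) := by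
    intro j
    by_cases h0 : n j = 0
    · simp [h0]
    · rw [hu j (hn j h0)]
      rw [← Pi.single_smul]
      simp
  simp_rw [h1]
  funext i
  rw [Finset.sum_apply]
  simp [Pi.single_apply]

/-- the presentation -/
noncomputable def phi (D : Cox R ι C r) (c : C) :
    MvPolynomial {j : ι // j ∉ D.u c} ℂ →ₐ[ℂ] FractionRing R :=
  aeval fun j => D.co c j.1

lemma phi_prod (h : D.Laws) {c : C} (hu : Uni D c) (m : ι → ℕ) :
    phi D c (∏ j : {j : ι // j ∉ D.u c}, X j ^ m j.1) =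
      algebraMap R (FractionRing R) (D.mono m) * D.monoZ (-(D.σ c (D.wt m))) := by
  rw [← prod_co h, map_prod]
  simp only [map_pow, phi, aeval_X]
  have h1 : ∏ j ∈ D.u c, D.co c j ^ m j = 1 :=
    Finset.prod_eq_one fun j hj => by rw [co_unit h hu hj, one_pow]
  have h2 : ∏ j, D.co c j ^ m j = ∏ j ∈ (D.u c)ᶜ, D.co c j ^ m j := by
    rw [← Finset.prod_mul_prod_compl (D.u c), h1, one_mul]
  rw [h2]
  symm
  refine Finset.prod_subtype _ (fun j => ?_) _
  simp

lemma gr_range (h : D.Laws) {c : C} (hu : Uni D c) {g : Fin r → ℤ} {a : R} (ha : a ∈ D.gr g) :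
    ∃ p, phi D c p = algebraMap R (FractionRing R) a * D.monoZ (-(D.σ c g)) := by
  rw [Cox.gr] at ha
  induction ha using Submodule.span_induction with
  | mem x hx =>
    obtain ⟨m, hm, rfl⟩ := hx
    have hm' : D.wt m = g := hm
    refine ⟨∏ j : {j : ι // j ∉ D.u c}, X j ^ m j.1, ?_⟩
    rw [phi_prod h hu, hm']
  | zero => exact ⟨0, by simp⟩
  | add x y _ _ hx hy =>
    obtain ⟨p, hp⟩ := hx
    obtain ⟨q, hq⟩ := hy
    exact ⟨p + q, by rw [map_add, hp, hq, map_add, add_mul]⟩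
  | smul z x _ hx =>
    obtain ⟨p, hp⟩ := hx
    refine ⟨z • p, ?_⟩
    rw [map_smul, hp, Algebra.smul_def, Algebra.smul_def, map_mul,
      IsScalarTower.algebraMap_apply ℂ R (FractionRing R), mul_assoc]

lemma chart_le_range (h : D.Laws) {c : C} (hu : Uni D c) : D.chart c ≤ (phi D c).range := by
  rintro f ⟨n, a, hn, ha, h1⟩
  obtain ⟨p, hp⟩ := gr_range h hu ha
  refine ⟨p, ?_⟩
  have h2 : phi D c p = f := by
    rw [hp, sigma_supp hu hn, h.monoZ_neg, Cox.monoZ_cast, ← h1, mul_assoc,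
      mul_inv_cancel₀ ?_, mul_one]
    rw [Ne, FaithfulSMul.algebraMap_eq_zero_iff]
    exact h.mono_ne n
  exact h2

/-- an inverse of the presentation on numerators -/
structure IsEv (D : Cox R ι C r) (c : C) (ev : R →ₐ[ℂ] MvPolynomial {j : ι // j ∉ D.u c} ℂ) :
    Prop where
  one : ∀ j ∈ D.u c, ev (D.X j) = 1
  var : ∀ j : {j : ι // j ∉ D.u c}, ev (D.X j.1) = X j

lemma ev_mono {c : C} {ev : R →ₐ[ℂ] MvPolynomial {j : ι // j ∉ D.u c} ℂ} (he : IsEv D c ev)
    {n : ι → ℕ} (hn : ∀ j, n j ≠ 0 → j ∈ D.u c) : ev (D.mono n) = 1 := by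
  rw [Cox.mono, map_prod]
  refine Finset.prod_eq_one fun j _ => ?_
  by_cases h0 : n j = 0
  · rw [h0, pow_zero, map_one]
  · rw [map_pow, he.one j (hn j h0), one_pow]

lemma num (h : D.Laws) {c : C} {ev : R →ₐ[ℂ] MvPolynomial {j : ι // j ∉ D.u c} ℂ}
    (he : IsEv D c ev) (p : MvPolynomial {j : ι // j ∉ D.u c} ℂ) :
    ∃ (n : ι → ℕ) (a : R), (∀ j, n j ≠ 0 → j ∈ D.u c) ∧
      phi D c p * algebraMap R (FractionRing R) (D.mono n) = algebraMap R (FractionRing R) a ∧
      ev a = p := by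
  induction p using MvPolynomial.induction_on with
  | C z =>
    refine ⟨0, algebraMap ℂ R z, by simp, ?_, ?_⟩
    · rw [D.mono_zero, map_one, mul_one, ← IsScalarTower.algebraMap_apply ℂ R (FractionRing R),
        ← MvPolynomial.algebraMap_eq, AlgHom.commutes]
    · rw [AlgHom.commutes, MvPolynomial.algebraMap_eq]
  | add p q hp hq =>
    obtain ⟨m, a, hm, h1, h2⟩ := hp
    obtain ⟨n, b, hn, h3, h4⟩ := hq
    refine ⟨m + n, a * D.mono n + b * D.mono m, ?_, ?_, ?_⟩
    · intro j hj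
      by_cases h0 : m j = 0
      · exact hn j (by simpa [h0] using hj)
      · exact hm j h0
    · rw [D.mono_add, map_mul, map_add, map_add, map_mul, map_mul, ← h1, ← h3]
      ring
    · rw [map_add, map_mul, map_mul, h2, h4, ev_mono he hm, ev_mono he hn, mul_one, mul_one]
  | mul_X p j hp =>
    obtain ⟨m, a, hm, h1, h2⟩ := hp
    set s := D.σ c (D.deg j.1) with hs
    set n1 : ι → ℕ := fun i => (s i).toNat with hn1
    set n2 : ι → ℕ := fun i => (-s i).toNat with hn2
    have hs1 : ∀ i, n1 i ≠ 0 → i ∈ D.u c := by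
      intro i hi
      refine h.σ_supp c (D.deg j.1) i fun h0 => hi ?_
      simp [hn1, hs, h0]
    have hs2 : ∀ i, n2 i ≠ 0 → i ∈ D.u c := by
      intro i hi
      refine h.σ_supp c (D.deg j.1) i fun h0 => hi ?_
      simp [hn2, hs, h0]
    refine ⟨m + n1, a * (D.X j.1 * D.mono n2), ?_, ?_, ?_⟩
    · intro i hi
      by_cases h0 : m i = 0
      · exact hs1 i (by simpa [h0] using hi)
      · exact hm i h0
    · have h5 : D.co c j.1 * algebraMap R (FractionRing R) (D.mono n1) =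
          algebraMap R (FractionRing R) (D.X j.1 * D.mono n2) := by
        rw [Cox.co, map_mul, ← Cox.monoZ_cast, ← Cox.monoZ_cast, mul_assoc, ← h.monoZ_add]
        congr 2
        funext i
        simp only [Pi.add_apply, Pi.neg_apply, hn1, hn2, ← hs]
        have := Int.toNat_sub_toNat_neg (s i)
        omega
      rw [map_mul, map_mul, D.mono_add, map_mul, ← h5, ← h1]
      have h6 : phi D c (X j) = D.co c j.1 := by rw [phi, aeval_X]
      rw [h6]
      ring
    · rw [map_mul, map_mul, h2, he.var j, ev_mono he hs2, mul_one]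

lemma phi_inj (h : D.Laws) {c : C} {ev : R →ₐ[ℂ] MvPolynomial {j : ι // j ∉ D.u c} ℂ}
    (he : IsEv D c ev) : Function.Injective (phi D c) := by
  rw [injective_iff_map_eq_zero]
  intro p hp
  obtain ⟨n, a, _, h1, h2⟩ := num h he p
  rw [hp, zero_mul] at h1
  have h3 : a = 0 := (FaithfulSMul.algebraMap_eq_zero_iff R (FractionRing R)).1 h1.symm
  rw [← h2, h3, map_zero]

lemma range_le_chart (hc : S_CHEL) (h : D.Laws) (c : C) : (phi D c).range ≤ D.chart c := by
  rw [phi, ← Algebra.adjoin_range_eq_range_aeval, Algebra.adjoin_le_iff]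
  rintro _ ⟨j, rfl⟩
  exact (hc R ι C r D h c).1 _ _ (D.X_mem j.1)

end gen

lemma uniY (c : ChY) : Uni DY c := by
  obtain ⟨i, j, k⟩ := c
  intro l hl
  change l ∈ uY (i, j, k) at hl
  change sigmaY (i, j, k) (degY l) = Pi.single l 1
  fin_cases k
  · have hl' : l ∈ ({CY.t i, CY.y j} ∪ {CY.o} : Finset CY) := hl
    simp only [Finset.mem_union, Finset.mem_insert, Finset.mem_singleton] at hl'
    rcases hl' with (rfl | rfl) | rfl
    · funext m
      cases m <;> simp [sigmaY, vecY, degY, Pi.single_apply]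
    · funext m
      fin_cases j <;> cases m <;> simp [sigmaY, vecY, degY, Pi.single_apply, tw]
    · funext m
      cases m <;> simp [sigmaY, vecY, degY, Pi.single_apply]
  · have hl' : l ∈ ({CY.t i, CY.y j} ∪ {CY.z} : Finset CY) := hl
    simp only [Finset.mem_union, Finset.mem_insert, Finset.mem_singleton] at hl'
    rcases hl' with (rfl | rfl) | rfl
    · funext m
      cases m <;> simp [sigmaY, vecY, degY, Pi.single_apply]
    · funext m
      fin_cases j <;> cases m <;> simp [sigmaY, vecY, degY, Pi.single_apply, tw]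
    · funext m
      cases m <;> simp [sigmaY, vecY, degY, Pi.single_apply]

lemma lawsY (h2 : S_YALG) (h3 : S_YNUM) (h4 : S_YCOV) : DY.Laws where
  top := h2.1
  indep := h2.2.1
  prime := h2.2.2.1
  nonassoc := h2.2.2.2
  pos := h3.1
  dpos := h3.2.1
  une := h3.2.2.1
  ν_supp := h3.2.2.2.1
  ν_wt := h3.2.2.2.2.1
  σ_supp := h3.2.2.2.2.2.1
  σ_wt := h3.2.2.2.2.2.2.1
  avoid := h3.2.2.2.2.2.2.2
  cover := h4

noncomputable def evY (c : ChY) : RY →ₐ[ℂ] MvPolynomial {j : CY // j ∉ DY.u c} ℂ :=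
  aeval fun j => if h : j ∈ DY.u c then 1 else X ⟨j, h⟩

lemma isEvY (c : ChY) : IsEv DY c (evY c) where
  one := by
    intro j hj
    change evY c (X j) = 1
    rw [evY, aeval_X, dif_pos hj]
  var := by
    intro j
    change evY c (X j.1) = X j
    rw [evY, aeval_X, dif_neg j.2]

end PRSY

theorem prsy (h1 : S_CHEL) (h2 : S_YALG) (h3 : S_YNUM) (h4 : S_YCOV) : S_PRSY := by
  intro c
  have hL := PRSY.lawsY h2 h3 h4
  refine ⟨PRSY.phi DY c, fun j => ?_, ?_, ?_⟩
  · exact aeval_X _ _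
  · exact le_antisymm (PRSY.range_le_chart h1 hL c) (PRSY.chart_le_range hL (PRSY.uniY c))
  · exact PRSY.phi_inj hL (PRSY.isEvY c)

end FCB
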