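import Pool.Agent.H62.FCB.PRSY

open MvPolynomial

namespace FCB

namespace RETR

section gen

variable {R ι C : Type} {r : ℕ} [CommRing R] [Algebra ℂ R] [Fintype ι] {D : Cox R ι C r}

/-- the surjection from the polynomial ring -/
noncomputable def psi (D : Cox R ι C r) : MvPolynomial ι ℂ →ₐ[ℂ] R := aeval D.X

lemma psi_prod (n : ι → ℕ) : psi D (∏ j, X j ^ n j) = D.mono n := by
  rw [psi, map_prod, Cox.mono]
  simp

lemma gr_le (g : Fin r → ℤ) : D.gr g ≤ Subalgebra.toSubmodule (psi D).range := by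
  rw [Cox.gr, Submodule.span_le]
  rintro _ ⟨n, _, rfl⟩
  exact ⟨_, psi_prod n⟩

lemma psi_surj (h : D.Laws) : Function.Surjective (psi D) := by
  intro a
  obtain ⟨s, hs, rfl⟩ := h.top a
  have : (s.sum fun _ x => x) ∈ Subalgebra.toSubmodule (psi D).range := by
    refine Submodule.sum_mem _ fun g _ => ?_
    exact gr_le g (hs g)
  exact this

/-- homogeneous components of a polynomial, mapped to `R` -/
noncomputable def cmp (D : Cox R ι C r) (p : MvPolynomial ι ℂ) : (Fin r → ℤ) →₀ R :=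
  ∑ m ∈ p.support, Finsupp.single (D.wt m) (coeff m p • D.mono m)

lemma cmp_mem (p : MvPolynomial ι ℂ) (g : Fin r → ℤ) : cmp D p g ∈ D.gr g := by
  classical
  rw [cmp, Finsupp.finsetSum_apply]
  refine Submodule.sum_mem _ fun m _ => ?_
  rw [Finsupp.single_apply]
  split_ifs with h0
  · rw [← h0]
    exact Submodule.smul_mem _ _ (D.mono_mem _)
  · exact Submodule.zero_mem _

lemma cmp_sum (p : MvPolynomial ι ℂ) : ((cmp D p).sum fun _ x => x) = psi D p := by
  have h1 : ((cmp D p).sum fun _ x => x) =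
      Finsupp.liftAddHom (fun _ : Fin r → ℤ => AddMonoidHom.id R) (cmp D p) := by
    rw [Finsupp.liftAddHom_apply]
    rfl
  rw [h1, cmp, map_sum, psi, aeval_def, eval₂_eq']
  refine Finset.sum_congr rfl fun m _ => ?_
  rw [Finsupp.liftAddHom_apply_single, AddMonoidHom.id_apply, Algebra.smul_def]
  rfl

variable [IsDomain R]

/-- dehomogenisation on polynomials -/
noncomputable def theta (D : Cox R ι C r) (c : C) : MvPolynomial ι ℂ →ₐ[ℂ] FractionRing R :=
  aeval (D.co c)

lemma theta_eq (h : D.Laws) (c : C) (p : MvPolynomial ι ℂ) :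
    theta D c p = Finsupp.liftAddHom (fun g : Fin r → ℤ =>
      (AddMonoidHom.mulRight (D.monoZ (-(D.σ c g)))).comp
        (algebraMap R (FractionRing R)).toAddMonoidHom) (cmp D p) := by
  classical
  rw [cmp, map_sum, theta, aeval_def, eval₂_eq']
  refine Finset.sum_congr rfl fun m _ => ?_
  rw [Finsupp.liftAddHom_apply_single, PRSY.prod_co h]
  simp only [AddMonoidHom.comp_apply, AddMonoidHom.mulRight_apply, RingHom.toAddMonoidHom_eq_coe,
    AddMonoidHom.coe_coe]
  rw [Algebra.smul_def, map_mul, ← IsScalarTower.algebraMap_apply ℂ R (FractionRing R), mul_assoc]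

lemma ker_le (h : D.Laws) (c : C) {p : MvPolynomial ι ℂ} (hp : psi D p = 0) :
    theta D c p = 0 := by
  have h1 : cmp D p = 0 := h.indep _ (cmp_mem p) (by rw [cmp_sum, hp])
  rw [theta_eq h, h1, map_zero]

/-- dehomogenisation -/
noncomputable def rho0 (h : D.Laws) (c : C) : R →ₐ[ℂ] FractionRing R :=
  (Ideal.Quotient.liftₐ (RingHom.ker (psi D)) (theta D c) fun _ hp => ker_le h c hp).comp
    (Ideal.quotientKerAlgEquivOfSurjective (psi_surj h)).symm.toAlgHom

lemma rho0_psi (h : D.Laws) (c : C) (p : MvPolynomial ι ℂ) : rho0 h c (psi D p) = theta D c p := by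
  have h1 : (Ideal.quotientKerAlgEquivOfSurjective (psi_surj h)).symm (psi D p) =
      Ideal.Quotient.mk _ p := by
    rw [AlgEquiv.symm_apply_eq]
    rfl
  rw [rho0, AlgHom.comp_apply]
  change (Ideal.Quotient.liftₐ (RingHom.ker (psi D)) (theta D c) _)
    ((Ideal.quotientKerAlgEquivOfSurjective (psi_surj h)).symm (psi D p)) = _
  rw [h1]
  rfl

lemma rho0_mono (h : D.Laws) (c : C) (n : ι → ℕ) :
    rho0 h c (D.mono n) =
      algebraMap R (FractionRing R) (D.mono n) * D.monoZ (-(D.σ c (D.wt n))) := by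
  classical
  rw [← PRSY.prod_co h, ← psi_prod, rho0_psi, theta, map_prod]
  simp

lemma rho0_X (h : D.Laws) (c : C) (j : ι) : rho0 h c (D.X j) = D.co c j := by
  have h1 : psi D (X j) = D.X j := by rw [psi, aeval_X]
  rw [← h1, rho0_psi, theta, aeval_X]

lemma rho0_gr (h : D.Laws) (c : C) {g : Fin r → ℤ} {a : R} (ha : a ∈ D.gr g) :
    rho0 h c a = algebraMap R (FractionRing R) a * D.monoZ (-(D.σ c g)) := by
  rw [Cox.gr] at ha
  induction ha using Submodule.span_induction with
  | mem x hx =>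
    obtain ⟨m, hm, rfl⟩ := hx
    have hm' : D.wt m = g := hm
    rw [rho0_mono, hm']
  | zero => simp
  | add x y _ _ hx hy => rw [map_add, hx, hy, map_add, add_mul]
  | smul z x _ hx =>
    rw [map_smul, hx, Algebra.smul_def, Algebra.smul_def, map_mul,
      ← IsScalarTower.algebraMap_apply ℂ R (FractionRing R), mul_assoc]

lemma rho0_mem (hc : S_CHEL) (h : D.Laws) (c : C) (a : R) : rho0 h c a ∈ D.chart c := by
  obtain ⟨p, rfl⟩ := psi_surj h a
  rw [rho0_psi]
  have h1 : (theta D c).range ≤ D.chart c := by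
    rw [theta, ← Algebra.adjoin_range_eq_range_aeval, Algebra.adjoin_le_iff]
    rintro _ ⟨j, rfl⟩
    exact (hc R ι C r D h c).1 _ _ (D.X_mem j)
  exact h1 ⟨p, rfl⟩

/-- dehomogenisation with values in the chart -/
noncomputable def rho1 (hc : S_CHEL) (h : D.Laws) (c : C) : R →ₐ[ℂ] D.chart c :=
  (rho0 h c).codRestrict (D.chart c) (rho0_mem hc h c)

lemma rho1_coe (hc : S_CHEL) (h : D.Laws) (c : C) (a : R) :
    ((rho1 hc h c a : D.chart c) : FractionRing R) = rho0 h c a := rfl

lemma unit_X (hc : S_CHEL) (h : D.Laws) (c : C) {j : ι} (hj : j ∈ D.u c) :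
    IsUnit (rho1 hc h c (D.X j)) := by
  classical
  have h1 : D.monoZ (D.σ c (D.deg j) - Pi.single j 1) ∈ D.chart c := by
    refine (hc R ι C r D h c).2.1 _ (fun i hi => ?_) ?_
    · by_cases hij : i = j
      · rw [hij]; exact hj
      · refine h.σ_supp c (D.deg j) i fun h0 => hi ?_
        rw [Pi.sub_apply, h0, Pi.single_eq_of_ne hij, sub_zero]
    · rw [D.wtZ_sub, h.σ_wt, D.wtZ_single, one_smul, sub_self]
  refine IsUnit.of_mul_eq_one ⟨_, h1⟩ ?_
  apply Subtype.ext
  change rho0 h c (D.X j) * D.monoZ (D.σ c (D.deg j) - Pi.single j 1) = 1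
  rw [rho0_X, Cox.co, h.monoZ_sub, Cox.monoZ_single, h.monoZ_neg, zpow_one]
  have h2 := h.monoZ_ne (D.σ c (D.deg j))
  have h3 := h.xF_ne j
  field_simp

lemma unit_m (hc : S_CHEL) (h : D.Laws) (c : C) :
    IsUnit (rho1 hc h c (∏ j ∈ D.u c, D.X j)) := by
  rw [map_prod]
  exact Finset.prod_induction _ IsUnit (fun a b => IsUnit.mul) isUnit_one
    fun j hj => unit_X hc h c hj

/-- the localised Cox ring -/
abbrev BB (D : Cox R ι C r) (c : C) : Type := Localization.Away (∏ j ∈ D.u c, D.X j)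

noncomputable def rho (hc : S_CHEL) (h : D.Laws) (c : C) : BB D c →ₐ[ℂ] D.chart c :=
  IsLocalization.Away.liftAlgHom (∏ j ∈ D.u c, D.X j) (f := rho1 hc h c) (unit_m hc h c)

lemma rho_alg (hc : S_CHEL) (h : D.Laws) (c : C) (a : R) :
    rho hc h c (algebraMap R (BB D c) a) = rho1 hc h c a :=
  IsLocalization.Away.lift_eq _ (unit_m hc h c) _

lemma m_ne (h : D.Laws) (c : C) :
    IsUnit (IsScalarTower.toAlgHom ℂ R (FractionRing R) (∏ j ∈ D.u c, D.X j)) := by
  rw [map_prod]
  exact Finset.prod_induction _ IsUnit (fun a b => IsUnit.mul) isUnit_one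
    fun j _ => (h.xF_ne j).isUnit

noncomputable def jB (h : D.Laws) (c : C) : BB D c →ₐ[ℂ] FractionRing R :=
  IsLocalization.Away.liftAlgHom (∏ j ∈ D.u c, D.X j)
    (f := IsScalarTower.toAlgHom ℂ R (FractionRing R)) (m_ne h c)

lemma jB_alg (h : D.Laws) (c : C) (a : R) :
    jB h c (algebraMap R (BB D c) a) = algebraMap R (FractionRing R) a :=
  IsLocalization.Away.lift_eq _ (m_ne h c) _

lemma jB_inj (h : D.Laws) (c : C) : Function.Injective (jB h c) := by
  rw [injective_iff_map_eq_zero]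
  intro b hb
  obtain ⟨n, a, h1⟩ := IsLocalization.Away.surj (∏ j ∈ D.u c, D.X j) b
  have h2 : algebraMap R (FractionRing R) a = 0 := by
    rw [← jB_alg h c a, ← h1, map_mul, hb, zero_mul]
  have h3 : a = 0 := (FaithfulSMul.algebraMap_eq_zero_iff R (FractionRing R)).1 h2
  rw [h3, map_zero] at h1
  have h4 : IsUnit (algebraMap R (BB D c) (∏ j ∈ D.u c, D.X j) ^ n) :=
    (IsLocalization.Away.algebraMap_isUnit _).pow n
  exact (h4.mul_left_eq_zero).1 h1

lemma unit_mono (c : C) {n : ι → ℕ} (hn : ∀ j, n j ≠ 0 → j ∈ D.u c) :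
    IsUnit (algebraMap R (BB D c) (D.mono n)) := by
  rw [Cox.mono, map_prod]
  refine Finset.prod_induction _ IsUnit (fun a b => IsUnit.mul) isUnit_one fun j _ => ?_
  by_cases h0 : n j = 0
  · rw [h0, pow_zero, map_one]
    exact isUnit_one
  · rw [map_pow]
    exact (IsLocalization.Away.isUnit_of_dvd (∏ j ∈ D.u c, D.X j)
      (Finset.dvd_prod_of_mem _ (hn j h0))).pow _

lemma chart_le (h : D.Laws) (c : C) : D.chart c ≤ (jB h c).range := by
  rintro f ⟨n, a, hn, ha, h1⟩
  obtain ⟨u, hu⟩ := unit_mono c hn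
  refine ⟨algebraMap R (BB D c) a * ↑u⁻¹, ?_⟩
  have h2 : algebraMap R (BB D c) a * ↑u⁻¹ * algebraMap R (BB D c) (D.mono n) =
      algebraMap R (BB D c) a := by
    rw [← hu, mul_assoc, Units.inv_mul, mul_one]
  have h3 := congrArg (jB h c) h2
  rw [map_mul, jB_alg, jB_alg, ← h1] at h3
  have h4 : algebraMap R (FractionRing R) (D.mono n) ≠ 0 := by
    rw [Ne, FaithfulSMul.algebraMap_eq_zero_iff]
    exact h.mono_ne n
  exact mul_right_cancel₀ h4 h3

noncomputable def inc (h : D.Laws) (c : C) : D.chart c →ₐ[ℂ] BB D c :=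
  (AlgEquiv.ofInjective (jB h c) (jB_inj h c)).symm.toAlgHom.comp
    (Subalgebra.inclusion (chart_le h c))

lemma jB_inc (h : D.Laws) (c : C) (f : D.chart c) : jB h c (inc h c f) = f := by
  have h1 := (AlgEquiv.ofInjective (jB h c) (jB_inj h c)).apply_symm_apply
    (Subalgebra.inclusion (chart_le h c) f)
  exact congrArg Subtype.val h1

lemma rho_inc (hc : S_CHEL) (h : D.Laws) (c : C) (f : D.chart c) :
    rho hc h c (inc h c f) = f := by
  obtain ⟨n, a, hn, ha, h1⟩ := f.2
  have h4 : algebraMap R (FractionRing R) (D.mono n) ≠ 0 := by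
    rw [Ne, FaithfulSMul.algebraMap_eq_zero_iff]
    exact h.mono_ne n
  have h2 : inc h c f * algebraMap R (BB D c) (D.mono n) = algebraMap R (BB D c) a := by
    apply jB_inj h c
    rw [map_mul, jB_inc, jB_alg, jB_alg, h1]
  have h3 := congrArg (fun b => ((rho hc h c b : D.chart c) : FractionRing R)) h2
  simp only [map_mul, rho_alg, MulMemClass.coe_mul, rho1_coe] at h3
  rw [rho0_gr h c (D.mono_mem n), rho0_gr h c ha, ← mul_assoc] at h3
  have h5 := mul_right_cancel₀ (h.monoZ_ne _) h3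
  rw [← h1] at h5
  exact Subtype.ext (mul_right_cancel₀ h4 h5)

end gen

end RETR

theorem retr (h1 : S_CHFG) (h2 : S_CHEL) : S_RETR := by
  intro R ι C r _ _ _ _ D h c hB
  have hft : Algebra.FiniteType ℂ (D.chart c) := h1 R ι C r D h c
  refine ⟨?_, Algebra.FinitePresentation.of_finiteType.1 hft⟩
  refine Algebra.FormallySmooth.of_comp_surjective ?_
  intro T _ _ I hI f
  have hs : Algebra.FormallySmooth ℂ (RETR.BB D c) := hB.formallySmooth
  obtain ⟨g, hg⟩ := Algebra.FormallySmooth.comp_surjective ℂ (RETR.BB D c) I hI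
    (f.comp (RETR.rho h2 h c))
  refine ⟨g.comp (RETR.inc h c), ?_⟩
  apply AlgHom.ext
  intro x
  have h3 := congrArg (fun k => k (RETR.inc h c x)) hg
  simp only [AlgHom.comp_apply] at h3 ⊢
  rw [h3, RETR.rho_inc]

end FCB
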