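import Pool.Agent.H30.FCB.StC
import Pool.Agent.H30.FCB.Basic

open MvPolynomial

namespace FCB

namespace XDOM

private noncomputable def AA : MvPolynomial CX ℂ := 2 * X CX.a * X CX.b

private noncomputable def BB : MvPolynomial CX ℂ :=
  eP CX.y * (X CX.w ^ 2 * X CX.a ^ 2 + X CX.v ^ 2 * X CX.b ^ 2)

private lemma vars_eP_sub {j : CX} (hj : ∀ i, CX.y i ≠ j) : j ∉ (eP CX.y).vars := by
  classical
  intro h
  have h2 := vars_sub_subset _ h
  rw [Finset.mem_union] at h2
  rcases h2 with h2 | h2
  · have h3 := vars_mul _ _ h2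
    rw [Finset.mem_union, vars_X, vars_X, Finset.mem_singleton, Finset.mem_singleton] at h3
    rcases h3 with h3 | h3
    · exact hj _ h3.symm
    · exact hj _ h3.symm
  · have h3 := vars_pow _ _ h2
    rw [vars_X, Finset.mem_singleton] at h3
    exact hj _ h3.symm

private lemma vars_sq_mul {j p q : CX} (hp : p ≠ j) (hq : q ≠ j) :
    j ∉ ((X p : MvPolynomial CX ℂ) ^ 2 * X q ^ 2).vars := by
  classical
  intro h
  have h3 := vars_mul _ _ h
  rw [Finset.mem_union] at h3
  rcases h3 with h3 | h3
  · have h4 := vars_pow _ _ h3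
    rw [vars_X, Finset.mem_singleton] at h4
    exact hp h4.symm
  · have h4 := vars_pow _ _ h3
    rw [vars_X, Finset.mem_singleton] at h4
    exact hq h4.symm

private lemma vars_B {j : CX} (hj : ∀ i, CX.y i ≠ j) (h1 : CX.w ≠ j) (h2 : CX.a ≠ j)
    (h3 : CX.v ≠ j) (h4 : CX.b ≠ j) : j ∉ BB.vars := by
  classical
  intro h
  have h5 := vars_mul _ _ h
  rw [Finset.mem_union] at h5
  rcases h5 with h5 | h5
  · exact vars_eP_sub hj h5
  · have h6 := vars_add_subset _ _ h5
    rw [Finset.mem_union] at h6
    rcases h6 with h6 | h6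
    · exact vars_sq_mul h1 h2 h6
    · exact vars_sq_mul h3 h4 h6

private lemma vars_A {j : CX} (h1 : CX.a ≠ j) (h2 : CX.b ≠ j) : j ∉ AA.vars := by
  classical
  intro h
  have h5 := vars_mul _ _ h
  rw [Finset.mem_union] at h5
  rcases h5 with h5 | h5
  · have h6 := vars_mul _ _ h5
    rw [Finset.mem_union] at h6
    rcases h6 with h6 | h6
    · have h7 : (2 : MvPolynomial CX ℂ) = C 2 := rfl
      rw [h7, vars_C] at h6
      exact absurd h6 (Finset.notMem_empty _)
    · rw [vars_X, Finset.mem_singleton] at h6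
      exact h1 h6.symm
  · rw [vars_X, Finset.mem_singleton] at h5
    exact h2 h5.symm

private lemma A_ne : AA ≠ 0 := by
  unfold AA
  exact mul_ne_zero (mul_ne_zero two_ne_zero (X_ne_zero _)) (X_ne_zero _)

private lemma FX_eq : FX = X CX.x ^ 2 + (AA * X CX.z + BB) := by
  unfold FX GX AA BB
  ring

private lemma prime_FX (h : S_SQF) : Prime FX := by
  rw [FX_eq]
  refine h CX CX.x CX.z AA BB ?_ ?_ ?_ ?_ ?_ A_ne
  · exact fun h => by cases h
  · exact vars_A (fun h => by cases h) (fun h => by cases h)
  · exact vars_A (fun h => by cases h) (fun h => by cases h)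
  · exact vars_B (fun i h => by cases h) (fun h => by cases h) (fun h => by cases h)
      (fun h => by cases h) (fun h => by cases h)
  · exact vars_B (fun i h => by cases h) (fun h => by cases h) (fun h => by cases h)
      (fun h => by cases h) (fun h => by cases h)

end XDOM

theorem xdom (h : S_SQF) : S_XDOM := by
  unfold S_XDOM
  have h1 := XDOM.prime_FX h
  have h2 : (Ideal.span {FX}).IsPrime := (Ideal.span_singleton_prime h1.ne_zero).2 h1
  exact Ideal.Quotient.isDomain _

end FCB
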